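import Mathlib

set_option autoImplicit false

namespace Pool.Agent.H.MP_892d82_al

open Filter Topology

universe u v

variable {G : Type u} [Group G]

/-- unnormalised product of factors -/
def op {V : Type v} [AddCommGroup V] [Module ℝ V] (ρ : Representation ℝ G V)
    (l : List (G × ℝ)) : Module.End ℝ V :=
  (l.map fun x => 1 + x.2 • ρ x.1).prod

section basic
variable {V : Type v} [AddCommGroup V] [Module ℝ V] (ρ : Representation ℝ G V)

@[simp] lemma op_nil : op ρ [] = 1 := by simp [op]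

lemma op_cons (x : G × ℝ) (l : List (G × ℝ)) (w : V) :
    op ρ (x :: l) w = op ρ l w + x.2 • ρ x.1 (op ρ l w) := by
  simp [op]

lemma op_append (l m : List (G × ℝ)) (w : V) :
    op ρ (l ++ m) w = op ρ l (op ρ m w) := by
  simp [op]

def Reach (a b : V) : Prop := ∃ l : List (G × ℝ), (∀ x ∈ l, 0 ≤ x.2) ∧ op ρ l a = b

lemma Reach.trans {a b c : V} (h1 : Reach ρ a b) (h2 : Reach ρ b c) : Reach ρ a c := by
  obtain ⟨l, hl, rfl⟩ := h1
  obtain ⟨m, hm, rfl⟩ := h2
  refine ⟨m ++ l, ?_, op_append ρ m l a⟩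
  intro x hx
  rcases List.mem_append.1 hx with h | h
  · exact hm x h
  · exact hl x h

def HH (m : List G) (z : ℝ × (G → ℝ) × V) : V :=
  m.foldr (fun g r => r + (1 + z.2.1 g) • ρ g (z.2.2 + z.1 • r)) 0

lemma op_HH (m : List G) (z : ℝ × (G → ℝ) × V) :
    op ρ (m.map fun g => (g, z.1 * (1 + z.2.1 g))) z.2.2 = z.2.2 + z.1 • HH ρ m z := by
  induction m with
  | nil => simp [HH]
  | cons g m ih =>
    rw [List.map_cons, op_cons, ih]
    simp only [HH, List.foldr_cons, smul_add, mul_smul]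
    rw [add_assoc]

lemma HH_zero (m : List G) (τ : G → ℝ) (w : V) :
    HH ρ m (0, τ, w) = (m.map fun g => (1 + τ g) • ρ g w).sum := by
  induction m with
  | nil => simp [HH]
  | cons g m ih =>
    simp only [HH, List.foldr_cons, List.map_cons, List.sum_cons] at ih ⊢
    rw [ih]
    simp [add_comm]
end basic

section normed
variable {V : Type v} [NormedAddCommGroup V] [NormedSpace ℝ V] [FiniteDimensional ℝ V]
  [Fintype G] (ρ : Representation ℝ G V)

lemma contDiff_HH (m : List G) : ContDiff ℝ 1 (HH ρ m) := by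
  induction m with
  | nil => exact contDiff_const
  | cons g m ih =>
    have h1 : ContDiff ℝ 1 (fun w : V => ρ g w) :=
      (LinearMap.toContinuousLinearMap (ρ g)).contDiff
    have h2 : HH ρ (g :: m) = fun z => HH ρ m z + (1 + z.2.1 g) • ρ g (z.2.2 + z.1 • HH ρ m z) := by
      funext z; simp [HH]
    rw [h2]
    refine ih.add (ContDiff.smul ?_ (h1.comp ?_))
    · fun_prop
    · exact contDiff_snd.snd.add (contDiff_fst.smul ih)

lemma local_reach (hs : ∀ w : V, ∑ g, ρ g w = 0) (v : V)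
    (hv : Submodule.span ℝ (Set.range fun g => ρ g v) = ⊤) :
    ∃ U ∈ 𝓝 v, ∀ a ∈ U, ∀ b ∈ U, Reach ρ a b := by
  classical
  set m : List G := (Finset.univ : Finset G).toList with hm
  set z0 : ℝ × (G → ℝ) × V := (0, 0, v) with hz0
  have hH : HasStrictFDerivAt (HH ρ m) (fderiv ℝ (HH ρ m) z0) z0 :=
    (contDiff_HH ρ m).contDiffAt.hasStrictFDerivAt (by simp)
  set D := fderiv ℝ (HH ρ m) z0 with hD
  let L : (G → ℝ) →L[ℝ] V :=
    LinearMap.toContinuousLinearMap (Fintype.linearCombination ℝ (fun g => ρ g v))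
  have hL : ∀ τ, HH ρ m (0, τ, v) = L τ := by
    intro τ
    rw [HH_zero, hm, Finset.sum_map_toList]
    simp only [add_smul, one_smul, Finset.sum_add_distrib, hs v, zero_add]
    simp [L, Fintype.linearCombination_apply]
  let ι : (G → ℝ) →L[ℝ] ℝ × (G → ℝ) × V :=
    (ContinuousLinearMap.inr ℝ ℝ ((G → ℝ) × V)).comp (ContinuousLinearMap.inl ℝ (G → ℝ) V)
  have hι : HasFDerivAt (fun τ : G → ℝ => ((0 : ℝ), τ, v)) ι 0 := by
    have : (fun τ : G → ℝ => ((0 : ℝ), τ, v)) = fun τ => ι τ + z0 := by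
      funext τ; simp [ι, hz0]
    rw [this]
    exact ι.hasFDerivAt.add_const _
  have hDL : D.comp ι = L := by
    have h1 : HasFDerivAt (fun τ : G → ℝ => HH ρ m (0, τ, v)) (D.comp ι) 0 :=
      HasFDerivAt.comp (0 : G → ℝ) (g := HH ρ m) hH.hasFDerivAt hι
    have h2 : (fun τ : G → ℝ => HH ρ m (0, τ, v)) = L := funext hL
    rw [h2] at h1
    exact h1.unique L.hasFDerivAt
  have hLs : Function.Surjective L := by
    have := (span_range_eq_top_iff_surjective_fintypeLinearCombination ℝ (fun g => ρ g v)).1 hv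
    exact this
  let Ψ : ℝ × (G → ℝ) × V → ℝ × V × V := fun z => (z.1, z.2.2, HH ρ m z)
  let A1 : ℝ × (G → ℝ) × V →L[ℝ] ℝ := ContinuousLinearMap.fst ℝ _ _
  let A2 : ℝ × (G → ℝ) × V →L[ℝ] V :=
    (ContinuousLinearMap.snd ℝ _ _).comp (ContinuousLinearMap.snd ℝ _ _)
  have hΨ : HasStrictFDerivAt Ψ (A1.prod (A2.prod D)) z0 :=
    A1.hasStrictFDerivAt.prodMk (A2.hasStrictFDerivAt.prodMk hH)
  have hsurj : (A1.prod (A2.prod D)).range = ⊤ := by
    rw [LinearMap.range_eq_top]
    rintro ⟨s, w, y⟩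
    obtain ⟨τ, hτ⟩ := hLs (y - D (s, 0, w))
    refine ⟨(s, τ, w), ?_⟩
    have e1 : ((s, τ, w) : ℝ × (G → ℝ) × V) = (s, 0, w) + ι τ := by simp [ι]
    have e2 : D (s, τ, w) = y := by
      rw [e1, map_add, show D (ι τ) = L τ from by rw [← hDL]; rfl, hτ]; abel
    simp [A1, A2, e2]
  have hmap := hΨ.map_nhds_eq_of_surj hsurj
  have hΨ0 : Ψ z0 = (0, v, 0) := by
    simp only [Ψ, hz0, hL]; simp
  have hW : {z : ℝ × (G → ℝ) × V | ∀ g, 0 < 1 + z.2.1 g} ∈ 𝓝 z0 := by
    have : IsOpen {z : ℝ × (G → ℝ) × V | ∀ g, 0 < 1 + z.2.1 g} := by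
      rw [Set.ofPred_forall]
      exact isOpen_iInter_of_finite fun g => isOpen_lt continuous_const (by fun_prop)
    exact this.mem_nhds (by simp [hz0])
  have hI := image_mem_map (m := Ψ) hW
  rw [hmap, hΨ0] at hI
  obtain ⟨δ, hδ, hball⟩ := Metric.mem_nhds_iff.1 hI
  have hmin : 0 < min δ (δ ^ 2 / 8) := lt_min hδ (by positivity)
  refine ⟨Metric.ball v (min δ (δ ^ 2 / 8)), Metric.ball_mem_nhds _ hmin, ?_⟩
  intro a ha b hb
  rw [Metric.mem_ball, lt_min_iff] at ha hb
  have hab : ‖b - a‖ < δ ^ 2 / 4 := by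
    have := dist_triangle_right b a v
    rw [dist_eq_norm] at this
    linarith [ha.2, hb.2]
  have hmem : ((δ / 2, a, (δ / 2)⁻¹ • (b - a)) : ℝ × V × V) ∈ Metric.ball ((0 : ℝ), v, (0 : V)) δ := by
    rw [Metric.mem_ball, Prod.dist_eq, Prod.dist_eq, max_lt_iff, max_lt_iff]
    refine ⟨?_, ha.1, ?_⟩
    · rw [Real.dist_eq, sub_zero, abs_of_pos (by positivity)]; linarith
    · rw [dist_zero_right, norm_smul, Real.norm_eq_abs, abs_of_pos (by positivity)]
      rw [inv_mul_lt_iff₀ (by positivity)]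
      nlinarith
  obtain ⟨z, hz, hzΨ⟩ := hball hmem
  simp only [Ψ, Prod.mk.injEq] at hzΨ
  obtain ⟨e1, e2, e3⟩ := hzΨ
  refine ⟨m.map fun g => (g, z.1 * (1 + z.2.1 g)), ?_, ?_⟩
  · intro x hx
    obtain ⟨g, -, rfl⟩ := List.mem_map.1 hx
    have := hz g
    rw [e1]; positivity
  · rw [← e2, op_HH, e3, e1, e2, smul_smul, mul_inv_cancel₀ (by positivity)]
    simp

lemma simple_normed (hG : ∀ N : Subgroup G, N.Normal → Odd N.index → N = ⊤)
    (hs : ∀ w : V, ∑ g, ρ g w = 0)
    (hirr : ∀ U : Submodule ℝ V, (∀ g, U ≤ U.comap (ρ g)) → U = ⊥ ∨ U = ⊤) (v : V) :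
    Reach ρ v 0 := by
  classical
  by_cases hv : v = 0
  · exact ⟨[], by simp, by simp [hv]⟩
  have hspan : ∀ w : V, w ≠ 0 → Submodule.span ℝ (Set.range fun g => ρ g w) = ⊤ := by
    intro w hw
    rcases hirr (Submodule.span ℝ (Set.range fun g => ρ g w)) (fun g => by
      rw [Submodule.span_le]
      rintro _ ⟨h, rfl⟩
      refine Submodule.subset_span ⟨g * h, ?_⟩
      simp) with h | h
    · exfalso
      have : ρ 1 w ∈ Submodule.span ℝ (Set.range fun g => ρ g w) := Submodule.subset_span ⟨1, rfl⟩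
      rw [h] at this
      simp at this
      exact hw this
    · exact h
  have hker : MonoidHom.ker ρ ≠ ⊤ := by
    intro h
    have h1 : ∀ g, ρ g v = v := by
      intro g
      have : g ∈ MonoidHom.ker ρ := by rw [h]; trivial
      rw [MonoidHom.mem_ker] at this
      rw [this]; rfl
    have h2 := hs v
    simp only [h1, Finset.sum_const, Finset.card_univ] at h2
    rw [← Nat.cast_smul_eq_nsmul ℝ, smul_eq_zero] at h2
    rcases h2 with h2 | h2
    · exact (Fintype.card_ne_zero (α := G)) (by exact_mod_cast h2)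
    · exact hv h2
  have heven : 2 ∣ Nat.card (G ⧸ MonoidHom.ker ρ) := by
    have h1 : ¬ Odd (MonoidHom.ker ρ).index := fun h => hker (hG _ inferInstance h)
    rw [Nat.not_odd_iff_even] at h1
    exact h1.two_dvd
  have : Fact (Nat.Prime 2) := ⟨Nat.prime_two⟩
  obtain ⟨q, hq⟩ := exists_prime_orderOf_dvd_card' 2 heven
  obtain ⟨g, rfl⟩ := QuotientGroup.mk_surjective q
  have hg1 : ρ g ≠ 1 := by
    intro h
    have : ((g : G) : G ⧸ MonoidHom.ker ρ) = 1 := (QuotientGroup.eq_one_iff g).2 h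
    rw [this, orderOf_one] at hq
    omega
  have hg2 : ρ (g * g) = 1 := by
    have h := pow_orderOf_eq_one ((g : G) : G ⧸ MonoidHom.ker ρ)
    rw [hq, pow_two, ← QuotientGroup.mk_mul] at h
    exact (QuotientGroup.eq_one_iff _).1 h
  obtain ⟨w, hw⟩ : ∃ w, ρ g w ≠ w := by
    by_contra h
    push Not at h
    exact hg1 (LinearMap.ext h)
  set z := w - ρ g w with hz
  have hz0 : z ≠ 0 := fun h => hw (sub_eq_zero.1 h).symm
  have hzk : op ρ [(g, 1)] z = 0 := by
    have : ρ g (ρ g w) = w := by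
      have := LinearMap.congr_fun hg2 w
      simpa using this
    rw [op_cons]
    simp [hz, this]
  by_cases hr : 1 < Module.rank ℝ V
  · have hc := (isConnected_compl_singleton_of_one_lt_rank hr (0 : V)).isPreconnected
    have : Reach ρ v z := by
      refine hc.induction₂' (Reach ρ) ?_ (fun a b c _ _ _ h1 h2 => h1.trans ρ h2) hv hz0
      intro x hx
      obtain ⟨U, hU, hR⟩ := local_reach ρ hs x (hspan x hx)
      filter_upwards [mem_nhdsWithin_of_mem_nhds hU] with y hy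
      exact ⟨hR x (mem_of_mem_nhds hU) y hy, hR y hy x (mem_of_mem_nhds hU)⟩
    exact this.trans ρ ⟨[(g, 1)], by simp, hzk⟩
  · rw [not_lt, rank_le_one_iff] at hr
    obtain ⟨v0, h0⟩ := hr
    obtain ⟨a, ha⟩ := h0 v
    obtain ⟨b, hb⟩ := h0 z
    have hb0 : b ≠ 0 := by rintro rfl; exact hz0 (by simpa using hb.symm)
    refine ⟨[(g, 1)], by simp, ?_⟩
    have : v = (a / b) • z := by
      rw [← hb, smul_smul, div_mul_cancel₀ _ hb0, ha]
    rw [this, map_smul, hzk, smul_zero]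

end normed

lemma op_sub {V : Type v} [AddCommGroup V] [Module ℝ V] (ρ : Representation ℝ G V)
    (U : Submodule ℝ V) (hU : ∀ g, U ≤ U.comap (ρ g)) (l : List (G × ℝ)) (w : U) :
    ((op (ρ.subrepresentation U hU) l w : U) : V) = op ρ l w := by
  induction l with
  | nil => simp
  | cons x l ih =>
    rw [op_cons, op_cons, ← ih]
    rfl

lemma op_quot {V : Type v} [AddCommGroup V] [Module ℝ V] (ρ : Representation ℝ G V)
    (U : Submodule ℝ V) (hU : ∀ g, U ≤ U.comap (ρ g)) (l : List (G × ℝ)) (w : V) :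
    op (ρ.quotient U hU) l (U.mkQ w) = U.mkQ (op ρ l w) := by
  induction l with
  | nil => simp
  | cons x l ih =>
    rw [op_cons, op_cons, ih, map_add, map_smul]
    rfl

lemma quot_sum [Fintype G] {V : Type v} [AddCommGroup V] [Module ℝ V] (ρ : Representation ℝ G V)
    (U : Submodule ℝ V) (hU : ∀ g, U ≤ U.comap (ρ g)) (hs : ∀ w : V, ∑ g, ρ g w ∈ U) (w : V ⧸ U) :
    ∑ g, ρ.quotient U hU g w = 0 := by
  obtain ⟨w, rfl⟩ := U.mkQ_surjective w
  have : ∀ g, ρ.quotient U hU g (U.mkQ w) = U.mkQ (ρ g w) := fun g => rfl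
  simp only [this]
  rw [← map_sum]
  exact (Submodule.Quotient.mk_eq_zero U).2 (hs w)

lemma kill [Fintype G] (hG : ∀ N : Subgroup G, N.Normal → Odd N.index → N = ⊤) (n : ℕ) :
    ∀ (V : Type v) [AddCommGroup V] [Module ℝ V] [FiniteDimensional ℝ V]
      (ρ : Representation ℝ G V), Module.finrank ℝ V = n → (∀ w : V, ∑ g, ρ g w = 0) →
      ∀ v : V, Reach ρ v 0 := by
  induction n using Nat.strong_induction_on with
  | _ n ih =>
    intro V _ _ _ ρ hn hs v
    by_cases hirr : ∀ U : Submodule ℝ V, (∀ g, U ≤ U.comap (ρ g)) → U = ⊥ ∨ U = ⊤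
    · let e : V ≃ₗ[ℝ] (Fin n → ℝ) := LinearEquiv.ofFinrankEq _ _ (by simp [hn])
      let _ : NormedAddCommGroup V := NormedAddCommGroup.induced V (Fin n → ℝ) e e.injective
      let _ : NormedSpace ℝ V := NormedSpace.induced ℝ V (Fin n → ℝ) e
      exact simple_normed ρ hG hs hirr v
    · push Not at hirr
      obtain ⟨U, hU, hb, ht⟩ := hirr
      have h1 : Module.finrank ℝ U < n := hn ▸ Submodule.finrank_lt ht
      have h2 : Module.finrank ℝ (V ⧸ U) < n := by
        have := U.finrank_quotient_add_finrank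
        have h3 : Module.finrank ℝ U ≠ 0 := fun h => hb (Submodule.finrank_eq_zero.1 h)
        omega
      obtain ⟨l, hl, e1⟩ := ih _ h2 (V ⧸ U) (ρ.quotient U hU) rfl
        (quot_sum ρ U hU fun w => by rw [hs]; exact U.zero_mem) (U.mkQ v)
      rw [op_quot] at e1
      have hm : op ρ l v ∈ U := (Submodule.Quotient.mk_eq_zero U).1 e1
      obtain ⟨m, hm', e2⟩ := ih _ h1 U (ρ.subrepresentation U hU) rfl (fun w => by
        apply Subtype.ext
        rw [Submodule.coe_sum]
        exact hs w) ⟨_, hm⟩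
      have e3 := congrArg (fun x : U => (x : V)) e2
      simp only [op_sub] at e3
      exact Reach.trans ρ ⟨l, hl, rfl⟩ ⟨m, hm', by simpa using e3⟩

/-- left regular representation on the complex group algebra, as a real representation -/
noncomputable def reg (G : Type u) [Group G] : Representation ℝ G (MonoidAlgebra ℂ G) where
  toFun g := LinearMap.mulLeft ℝ (MonoidAlgebra.single g (1 : ℂ))
  map_one' := by
    apply LinearMap.ext; intro x
    simp [← MonoidAlgebra.one_def]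
  map_mul' g h := by
    apply LinearMap.ext; intro x
    simp [← mul_assoc, MonoidAlgebra.single_mul_single]

lemma reg_apply (g : G) (x : MonoidAlgebra ℂ G) :
    reg G g x = MonoidAlgebra.single g (1 : ℂ) * x := rfl

noncomputable def fac (x : G × ℝ) : MonoidAlgebra ℂ G :=
  MonoidAlgebra.single 1 ((1 - x.2 : ℝ) : ℂ) + MonoidAlgebra.single x.1 ((x.2 : ℝ) : ℂ)

lemma fac_prod (l : List (G × ℝ)) (hl : ∀ x ∈ l, 0 ≤ x.2) :
    ∃ c : ℂ, ((l.map fun x => (x.1, x.2 / (1 + x.2))).map fac).prod = c • op (reg G) l 1 := by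
  induction l with
  | nil => exact ⟨1, by simp⟩
  | cons x l ih =>
    obtain ⟨c, hc⟩ := ih fun y hy => hl y (List.mem_cons_of_mem _ hy)
    have hx := hl x List.mem_cons_self
    refine ⟨((1 + x.2 : ℝ) : ℂ)⁻¹ * c, ?_⟩
    rw [List.map_cons, List.map_cons, List.prod_cons, hc, op_cons, reg_apply]
    have h1 : (1 + x.2 : ℝ) ≠ 0 := by positivity
    have h2 : fac (x.1, x.2 / (1 + x.2)) =
        ((1 + x.2 : ℝ) : ℂ)⁻¹ • (1 + x.2 • MonoidAlgebra.single x.1 (1 : ℂ)) := by
      have h3 : ((1 + x.2 : ℝ) : ℂ) ≠ 0 := by exact_mod_cast h1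
      rw [fac, smul_add, MonoidAlgebra.one_def, MonoidAlgebra.smul_single,
        MonoidAlgebra.smul_single, MonoidAlgebra.smul_single]
      congr 2
      · push_cast at h3 ⊢; simp only [smul_eq_mul]; field_simp; ring
      · push_cast at h3 ⊢; simp only [smul_eq_mul, Complex.real_smul]; field_simp
    rw [h2, smul_mul_smul_comm, add_mul, one_mul, smul_mul_assoc]

theorem main (G : Type u) [Group G] [Fintype G]
    (hG : ∀ N : Subgroup G, N.Normal → Odd N.index → N = ⊤) :
    ∃ l : List (G × ℝ), (∀ x ∈ l, 0 ≤ x.2 ∧ x.2 ≤ 1) ∧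
      (l.map fac).prod = (Fintype.card G : ℂ)⁻¹ • ∑ g : G, MonoidAlgebra.single g (1 : ℂ) := by
  classical
  set σ : MonoidAlgebra ℂ G := ∑ g : G, MonoidAlgebra.single g (1 : ℂ) with hσ
  have hl : ∀ g : G, MonoidAlgebra.single g (1 : ℂ) * σ = σ := by
    intro g
    rw [hσ, Finset.mul_sum]
    simp only [MonoidAlgebra.single_mul_single, mul_one]
    exact Fintype.sum_equiv (Equiv.mulLeft g) _ _ (fun _ => rfl)
  have hr : ∀ g : G, σ * MonoidAlgebra.single g (1 : ℂ) = σ := by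
    intro g
    rw [hσ, Finset.sum_mul]
    simp only [MonoidAlgebra.single_mul_single, mul_one]
    exact Fintype.sum_equiv (Equiv.mulRight g) _ _ (fun _ => rfl)
  let U : Submodule ℝ (MonoidAlgebra ℂ G) := (Submodule.span ℂ {σ}).restrictScalars ℝ
  have hmem : ∀ x, x ∈ U ↔ ∃ c : ℂ, c • σ = x := fun x => Submodule.mem_span_singleton
  have hU : ∀ g, U ≤ U.comap (reg G g) := by
    intro g x hx
    obtain ⟨c, rfl⟩ := (hmem x).1 hx
    refine (hmem _).2 ⟨c, ?_⟩
    rw [reg_apply, mul_smul_comm, hl]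
  have hs : ∀ w, ∑ g, reg G g w ∈ U := by
    intro w
    simp only [reg_apply]
    rw [← Finset.sum_mul, ← hσ]
    induction w using MonoidAlgebra.induction_on with
    | of g => exact (hmem _).2 ⟨1, by simp [hr]⟩
    | add a b ha hb => rw [mul_add]; exact U.add_mem ha hb
    | smul r a ha =>
      obtain ⟨c, hc⟩ := (hmem _).1 ha
      exact (hmem _).2 ⟨r * c, by rw [mul_smul_comm, ← hc, smul_smul]⟩
  have : FiniteDimensional ℝ (MonoidAlgebra ℂ G) := Module.Finite.trans ℂ _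
  obtain ⟨l, hl0, e1⟩ := kill hG _ (MonoidAlgebra ℂ G ⧸ U) ((reg G).quotient U hU) rfl
    (quot_sum _ U hU hs) (U.mkQ 1)
  rw [op_quot] at e1
  obtain ⟨c, hc⟩ := (hmem _).1 ((Submodule.Quotient.mk_eq_zero U).1 e1)
  obtain ⟨d, hd⟩ := fac_prod l hl0
  refine ⟨l.map fun x => (x.1, x.2 / (1 + x.2)), ?_, ?_⟩
  · intro y hy
    obtain ⟨x, hx, rfl⟩ := List.mem_map.1 hy
    have := hl0 x hx
    exact ⟨by positivity, by rw [div_le_one (by positivity)]; linarith⟩
  · let ε : MonoidAlgebra ℂ G →ₐ[ℂ] ℂ := MonoidAlgebra.lift ℂ ℂ G 1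
    have hε : ∀ m : List (G × ℝ), ε (m.map fac).prod = 1 := by
      intro m
      induction m with
      | nil => simp
      | cons x m ih =>
        rw [List.map_cons, List.prod_cons, map_mul, ih, fac]
        simp [ε]
    have h1 := hε (l.map fun x => (x.1, x.2 / (1 + x.2)))
    rw [hd, ← hc, smul_smul] at h1 ⊢
    have h2 : ε σ = Fintype.card G := by simp [hσ, ε]
    rw [map_smul, h2, smul_eq_mul] at h1
    rw [eq_inv_of_mul_eq_one_left h1]

end Pool.Agent.H.MP_892d82_al
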